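import Mathlib
import Pool.Agent.Y810.PLP.Real

/-!
# An explicit lower bound for the optimal constant `k*`
-/

namespace Pool.Agent.Results.MP_9f1016_co.ExplicitLowerBound

/-- the lines determined by `S`: the affine spans of two different points of `S` -/
def lines (S : Finset (EuclideanSpace ℝ (Fin 3))) :
    Set (AffineSubspace ℝ (EuclideanSpace ℝ (Fin 3))) :=
  {A | ∃ x ∈ S, ∃ y ∈ S, x ≠ y ∧ A = affineSpan ℝ {x, y}}

/-- the planes determined by `S`: the affine spans of three points `x, y, z` of `S` with `x ≠ y`
and `z` not on the line through `x` and `y` -/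
def planes (S : Finset (EuclideanSpace ℝ (Fin 3))) :
    Set (AffineSubspace ℝ (EuclideanSpace ℝ (Fin 3))) :=
  {A | ∃ x ∈ S, ∃ y ∈ S, ∃ z ∈ S, x ≠ y ∧ z ∉ affineSpan ℝ {x, y} ∧
    A = affineSpan ℝ {x, y, z}}

/-- For every finite set `S` of points of the three-space, the number of points times the number
of determined planes is at most `448` times the square of the number of determined lines. -/
theorem result (S : Finset (EuclideanSpace ℝ (Fin 3))) :
    S.card * (planes S).ncard ≤ 448 * (lines S).ncard ^ 2 :=
  Pool.Agent.Y810.PLP.real_main S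

end Pool.Agent.Results.MP_9f1016_co.ExplicitLowerBound
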